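import Pool.Agent.Y832.H.Ecar0

/-! Change of variables of Weierstrass equations at a prime over 2, additive case. -/

set_option autoImplicit false

namespace Pool.Agent.Y475.H

open WithZero IsDedekindDomain

/-- from `a ^ 3 ∈ 𝔓 ^ (2 * l)` one gets an exponent for `a`. -/
theorem cube_mem {O : Type} [CommRing O] [IsDomain O] [IsDedekindDomain O] (𝔓 : Ideal O)
    (h𝔓 : 𝔓.IsMaximal) (h0 : 𝔓 ≠ ⊥) (l : ℕ) (a : O) (ha : a ^ 3 ∈ 𝔓 ^ (2 * l)) :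
    ∃ m : ℕ, m ≤ l ∧ 2 * l ≤ 3 * m ∧ a ∈ 𝔓 ^ m := by
  let v : HeightOneSpectrum O := ⟨𝔓, h𝔓.isPrime, h0⟩
  have hv : ∀ (r : O) (n : ℕ), v.intValuation r ≤ exp (-(n : ℤ)) ↔ r ∈ 𝔓 ^ n :=
    fun r n => v.intValuation_le_pow_iff_mem r n
  by_cases h : a = 0
  · exact ⟨l, le_rfl, by omega, by rw [h]; exact Ideal.zero_mem _⟩
  · obtain ⟨n, hn⟩ : ∃ n : ℕ, v.intValuation a = exp (-(n : ℤ)) := ⟨_, v.intValuation_if_neg h⟩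
    have h1 := (hv _ _).2 ha
    rw [map_pow, hn, ← exp_nsmul, exp_le_exp] at h1
    have h2 : 2 * l ≤ 3 * n := by
      simp only [nsmul_eq_mul] at h1
      push_cast at h1
      omega
    refine ⟨min n l, min_le_right _ _, ?_, ?_⟩
    · rcases le_total n l with h3 | h3
      · rw [min_eq_left h3]
        exact h2
      · rw [min_eq_right h3]
        omega
    · exact Ideal.pow_le_pow_right (min_le_left _ _) ((hv _ _).1 hn.le)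

theorem t_ec2ar0 (O : Type) [CommRing O] [IsDomain O] [IsDedekindDomain O] (𝔓 : Ideal O)
    (h𝔓 : 𝔓.IsMaximal) (h0 : 𝔓 ≠ ⊥) (t : O ≃+* O) (l : ℕ) (hl : 1 ≤ l)
    (ht : ∀ o, t o - o ∈ 𝔓 ^ (l + 1)) (h2 : (2 : O) ∈ 𝔓 ^ l) (Wc : WeierstrassCurve O)
    (hΔ : Wc.Δ ∉ 𝔓) (ha1 : Wc.a₁ ^ 3 ∈ 𝔓 ^ (2 * l)) (C : WeierstrassCurve.VariableChange O)
    (hC : Wc = C • Wc.map (t : O →+* O)) (hCC : C * C.map (t : O →+* O) = 1)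
    (hab : ∃ a b : O, a ≠ 0 ∧ b ≠ 0 ∧ (C.u : O) * t a * b = a * t b) :
    (C.u : O) - 1 ∈ 𝔓 ^ l ∧ (∃ n, l ≤ 3 * n ∧ C.r ∈ 𝔓 ^ n) ∧ (∃ n, 2 * l ≤ 3 * n ∧ C.s ∈ 𝔓 ^ n) ∧
    (C.t ∈ 𝔓 → C.r ∈ 𝔓 ^ l ∧ C.s ∈ 𝔓 ^ l ∧ C.t ∈ 𝔓 ^ l) := by
  obtain ⟨a, b, ha, hb, hab⟩ := hab
  have hprime : 𝔓.IsPrime := h𝔓.isPrime
  have hu := Pool.Agent.Y832.H.unit_mem 𝔓 h𝔓 h0 t l ht C.u a b ha hb hab
  have hl0 : l ≠ 0 := by omega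
  have hself : ∀ x, x ∈ 𝔓 ^ l → x ∈ 𝔓 := fun x hx => Ideal.pow_le_self hl0 hx
  have h21 : (2 : O) ∈ 𝔓 := hself _ h2
  have h3 : (3 : O) ∉ 𝔓 := by
    intro h
    apply hprime.ne_top
    rw [Ideal.eq_top_iff_one]
    have h4 : (1 : O) = 3 - 2 := by norm_num
    rw [h4]
    exact 𝔓.sub_mem h h21
  have htl : ∀ o, t o - o ∈ 𝔓 ^ l := fun o => Ideal.pow_le_pow_right (by omega) (ht o)
  have hcancel : ∀ x y : O, x ∉ 𝔓 → ∀ n : ℕ, x * y ∈ 𝔓 ^ n → y ∈ 𝔓 ^ n := by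
    intro x y hx n hxy
    exact (Ideal.IsPrime.mul_mem_pow 𝔓 hxy).resolve_left hx
  have huu : (C.u : O) * (C.u⁻¹ : Oˣ) = 1 := C.u.mul_inv
  -- powers of the unit
  have hun : ∀ n : ℕ, (C.u : O) ^ n - 1 ∈ 𝔓 ^ l := by
    intro n
    obtain ⟨d, hd⟩ := sub_one_dvd_pow_sub_one (C.u : O) n
    rw [hd]
    exact Ideal.mul_mem_right _ _ hu
  have htu : t (C.u : O) - 1 ∈ 𝔓 ^ l := by
    have h4 : t (C.u : O) - 1 = (t (C.u : O) - C.u) + (C.u - 1) := by ring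
    rw [h4]
    exact Ideal.add_mem _ (htl _) hu
  have htun : ∀ n : ℕ, (t (C.u : O)) ^ n - 1 ∈ 𝔓 ^ l := by
    intro n
    obtain ⟨d, hd⟩ := sub_one_dvd_pow_sub_one (t (C.u : O)) n
    rw [hd]
    exact Ideal.mul_mem_right _ _ htu
  have hdiff : ∀ (n : ℕ) (c : O), (C.u : O) ^ n * c - t c ∈ 𝔓 ^ l := by
    intro n c
    have h4 : (C.u : O) ^ n * c - t c = ((C.u : O) ^ n - 1) * c - (t c - c) := by ring
    rw [h4]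
    exact Ideal.sub_mem _ (Ideal.mul_mem_right _ _ (hun n)) (htl c)
  have huinv : ∀ n : ℕ, (C.u : O) ^ n * ((C.u⁻¹ : Oˣ) : O) ^ n = 1 := by
    intro n
    rw [← mul_pow, huu, one_pow]
  have htnot : ∀ c, c ∉ 𝔓 → t c ∉ 𝔓 := by
    intro c hc h
    apply hc
    have h5 : c = t c - (t c - c) := by ring
    rw [h5]
    exact 𝔓.sub_mem h (hself _ (htl c))
  -- the formulas
  have f2 : (C.u : O) ^ 2 * Wc.a₂ = t Wc.a₂ - C.s * t Wc.a₁ + 3 * C.r - C.s ^ 2 := by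
    have h4 : Wc.a₂ = ((C.u⁻¹ : Oˣ) : O) ^ 2 *
        (t Wc.a₂ - C.s * t Wc.a₁ + 3 * C.r - C.s ^ 2) := by
      conv_lhs => rw [hC]
      rfl
    conv_lhs => rw [h4]
    rw [← mul_assoc, huinv, one_mul]
  have f4 : (C.u : O) ^ 4 * Wc.a₄ = t Wc.a₄ - C.s * t Wc.a₃ + 2 * C.r * t Wc.a₂
      - (C.t + C.r * C.s) * t Wc.a₁ + 3 * C.r ^ 2 - 2 * C.s * C.t := by
    have h4 : Wc.a₄ = ((C.u⁻¹ : Oˣ) : O) ^ 4 * (t Wc.a₄ - C.s * t Wc.a₃ + 2 * C.r * t Wc.a₂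
      - (C.t + C.r * C.s) * t Wc.a₁ + 3 * C.r ^ 2 - 2 * C.s * C.t) := by
      conv_lhs => rw [hC]
      rfl
    conv_lhs => rw [h4]
    rw [← mul_assoc, huinv, one_mul]
  have f6 : (C.u : O) ^ 6 * Wc.a₆ = t Wc.a₆ + C.r * t Wc.a₄ + C.r ^ 2 * t Wc.a₂ + C.r ^ 3
      - C.t * t Wc.a₃ - C.t ^ 2 - C.r * C.t * t Wc.a₁ := by
    have h4 : Wc.a₆ = ((C.u⁻¹ : Oˣ) : O) ^ 6 * (t Wc.a₆ + C.r * t Wc.a₄ + C.r ^ 2 * t Wc.a₂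
      + C.r ^ 3 - C.t * t Wc.a₃ - C.t ^ 2 - C.r * C.t * t Wc.a₁) := by
      conv_lhs => rw [hC]
      rfl
    conv_lhs => rw [h4]
    rw [← mul_assoc, huinv, one_mul]
  -- the composite change of variables
  have ft : C.t * (t (C.u : O)) ^ 3 + C.r * t C.s * (t (C.u : O)) ^ 2 + t C.t = 0 := by
    have h4 : (C * C.map (t : O →+* O)).t = (1 : WeierstrassCurve.VariableChange O).t := by
      rw [hCC]
    exact h4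
  have hrs : C.r * C.s ∈ 𝔓 ^ l := by
    have h4 : C.r * C.s = (C.t * (t (C.u : O)) ^ 3 + C.r * t C.s * (t (C.u : O)) ^ 2 + t C.t)
        - C.t * ((t (C.u : O)) ^ 3 - 1) - (C.r * t C.s) * ((t (C.u : O)) ^ 2 - 1)
        - C.r * (t C.s - C.s) - (t C.t - C.t) - C.t * 2 := by ring
    rw [h4, ft]
    exact Ideal.sub_mem _ (Ideal.sub_mem _ (Ideal.sub_mem _ (Ideal.sub_mem _ (Ideal.sub_mem _
      (Ideal.zero_mem _) (Ideal.mul_mem_left _ _ (htun 3))) (Ideal.mul_mem_left _ _ (htun 2)))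
      (Ideal.mul_mem_left _ _ (htl _))) (htl _)) (Ideal.mul_mem_left _ _ h2)
  -- (1)
  have g2 : 3 * C.r - C.s * (C.s + t Wc.a₁) ∈ 𝔓 ^ l := by
    have h4 := hdiff 2 Wc.a₂
    rw [f2] at h4
    have h5 : 3 * C.r - C.s * (C.s + t Wc.a₁) =
      t Wc.a₂ - C.s * t Wc.a₁ + 3 * C.r - C.s ^ 2 - t Wc.a₂ := by ring
    rwa [h5]
  have g22 : C.r ^ 2 ∈ 𝔓 ^ l := by
    apply hcancel 3 _ h3
    have h5 : 3 * C.r ^ 2 = C.r * (3 * C.r - C.s * (C.s + t Wc.a₁)) +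
      (C.s + t Wc.a₁) * (C.r * C.s) := by ring
    rw [h5]
    exact Ideal.add_mem _ (Ideal.mul_mem_left _ _ g2) (Ideal.mul_mem_left _ _ hrs)
  -- (3)
  have g4 : t Wc.a₃ * C.s + C.t * t Wc.a₁ ∈ 𝔓 ^ l := by
    have h4 := hdiff 4 Wc.a₄
    rw [f4] at h4
    have h5 : t Wc.a₃ * C.s + C.t * t Wc.a₁ =
      (C.r * t Wc.a₂ - C.s * C.t) * 2 + 3 * C.r ^ 2 - t Wc.a₁ * (C.r * C.s) -
      (t Wc.a₄ - C.s * t Wc.a₃ + 2 * C.r * t Wc.a₂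
      - (C.t + C.r * C.s) * t Wc.a₁ + 3 * C.r ^ 2 - 2 * C.s * C.t - t Wc.a₄) := by ring
    rw [h5]
    exact Ideal.sub_mem _ (Ideal.sub_mem _ (Ideal.add_mem _ (Ideal.mul_mem_left _ _ h2)
      (Ideal.mul_mem_left _ _ g22)) (Ideal.mul_mem_left _ _ hrs)) h4
  -- units modulo 𝔓
  have ha1P : Wc.a₁ ∈ 𝔓 :=
    hprime.mem_of_pow_mem 3 (Ideal.pow_le_self (by omega) ha1)
  have ha3 : Wc.a₃ ∉ 𝔓 := by
    intro h
    apply hΔ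
    have h5 : Wc.Δ = (-(Wc.a₁ * (Wc.a₁ ^ 2 + 4 * Wc.a₂) * Wc.b₈) +
        9 * Wc.a₁ * Wc.b₄ * Wc.b₆) * Wc.a₁ +
        (-2 * Wc.a₂ * Wc.b₂ * Wc.b₈ + 18 * Wc.a₂ * Wc.b₄ * Wc.b₆ - 4 * Wc.b₄ ^ 3
          - 54 * Wc.a₆ * Wc.b₆) * 2 +
        (- 27 * Wc.a₃ * Wc.b₆) * Wc.a₃ := by
      rw [WeierstrassCurve.Δ, WeierstrassCurve.b₂, WeierstrassCurve.b₆]
      ring
    rw [h5]
    exact 𝔓.add_mem (𝔓.add_mem (𝔓.mul_mem_left _ ha1P) (𝔓.mul_mem_left _ h21))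
      (𝔓.mul_mem_left _ h)
  obtain ⟨m, hml, hm, ham⟩ := cube_mem 𝔓 h𝔓 h0 l Wc.a₁ ha1
  have htam : t Wc.a₁ ∈ 𝔓 ^ m := by
    have h4 : t Wc.a₁ = (t Wc.a₁ - Wc.a₁) + Wc.a₁ := by ring
    rw [h4]
    exact Ideal.add_mem _ (Ideal.pow_le_pow_right hml (htl _)) ham
  have hsm : C.s ∈ 𝔓 ^ m := by
    apply hcancel (t Wc.a₃) _ (htnot _ ha3)
    have h4 : t Wc.a₃ * C.s = (t Wc.a₃ * C.s + C.t * t Wc.a₁) - C.t * t Wc.a₁ := by ring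
    rw [h4]
    exact Ideal.sub_mem _ (Ideal.pow_le_pow_right hml g4) (Ideal.mul_mem_left _ _ htam)
  have hrl : C.r ∈ 𝔓 ^ l := by
    apply hcancel 3 _ h3
    have h4 : 3 * C.r = (3 * C.r - C.s * (C.s + t Wc.a₁)) + C.s * (C.s + t Wc.a₁) := by ring
    rw [h4]
    refine Ideal.add_mem _ g2 ?_
    have h5 : C.s * (C.s + t Wc.a₁) ∈ 𝔓 ^ m * 𝔓 ^ m :=
      Ideal.mul_mem_mul hsm (Ideal.add_mem _ hsm htam)
    rw [← pow_add] at h5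
    exact Ideal.pow_le_pow_right (by omega) h5
  refine ⟨hu, ⟨l, by omega, hrl⟩, ⟨m, hm, hsm⟩, ?_⟩
  intro htP
  have htl' : C.t ∈ 𝔓 ^ l := by
    apply hcancel (t Wc.a₃ + C.t) _
    · intro h
      apply htnot _ ha3
      have h4 : t Wc.a₃ = (t Wc.a₃ + C.t) - C.t := by ring
      rw [h4]
      exact 𝔓.sub_mem h htP
    · have h4 := hdiff 6 Wc.a₆
      rw [f6] at h4
      have h5 : (t Wc.a₃ + C.t) * C.t = (t Wc.a₄ + C.r * t Wc.a₂ + C.r ^ 2 - C.t * t Wc.a₁) * C.r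
        - (t Wc.a₆ + C.r * t Wc.a₄ + C.r ^ 2 * t Wc.a₂ + C.r ^ 3
          - C.t * t Wc.a₃ - C.t ^ 2 - C.r * C.t * t Wc.a₁ - t Wc.a₆) := by ring
      rw [h5]
      exact Ideal.sub_mem _ (Ideal.mul_mem_left _ _ hrl) h4
  refine ⟨hrl, ?_, htl'⟩
  apply hcancel (t Wc.a₃) _ (htnot _ ha3)
  have h4 : t Wc.a₃ * C.s = (t Wc.a₃ * C.s + C.t * t Wc.a₁) - t Wc.a₁ * C.t := by ring
  rw [h4]
  exact Ideal.sub_mem _ g4 (Ideal.mul_mem_left _ _ htl')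

end Pool.Agent.Y475.H
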