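import Pool.Agent.Y223.G.Stm14
import Pool.Agent.Y475.H.Ec2ar0

/-! Job W7-EC2AR. -/

set_option autoImplicit false

namespace Pool.Agent.Y475.H

theorem t_EC2AR : Pool.Agent.Y223.G.S_EC2AR := by
  intro O _ _ _ 𝔓 h𝔓 h0 t l hl ht h2 Wc hΔ ha1 C hC hCC hab
  exact t_ec2ar0 O 𝔓 h𝔓 h0 t l hl ht h2 Wc hΔ ha1 C hC hCC hab

end Pool.Agent.Y475.H
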